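import Pool.Agent.Lib_norine.Main
import Pool.Agent.Lib_MP_a0ec0b_co.Walks

/-!
Monochromatic paths from `u` to `φ u` for automorphisms `φ` of the cube that are involutive on the
smallest face containing `w` and `φ w`, for some vertex `w`, and for colourings in which every edge
or its image under `φ` has a given colour (Norine's conjecture when `φ` is the antipodal map).
-/

set_option autoImplicit false

namespace Pool.Agent.Results.MP_a0ec0b_co.Norine

open Pool.Agent.CubeHom

variable {n : ℕ}

/-- the vertex obtained from `u` by changing the coordinates in `S`. -/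
def e (u : V n) (N : Finset (Fin n)) (S : Finset {i : Fin n // i ∈ N}) : V n :=
  fun j => if h : j ∈ N then (if (⟨j, h⟩ : {i : Fin n // i ∈ N}) ∈ S then !(u j) else u j) else u j

theorem e_insert (u : V n) (N : Finset (Fin n)) (S : Finset {i : Fin n // i ∈ N})
    (i : {i : Fin n // i ∈ N}) (hi : i ∉ S) : e u N (insert i S) = flip (e u N S) i.1 := by
  funext j
  by_cases hj : j = i.1
  · subst hj
    rw [flip_same]
    simp [e, i.2, hi]
  · rw [flip_of_ne _ hj]
    unfold e
    by_cases h : j ∈ N
    · have hne : (⟨j, h⟩ : {i : Fin n // i ∈ N}) ≠ i := fun hh => hj (congrArg Subtype.val hh)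
      simp [h, hne]
    · simp [h]

theorem e_empty (u : V n) (N : Finset (Fin n)) : e u N ∅ = u := by
  funext j
  simp [e]

/-- distances along a face -/
theorem dist_face (w z x : V n) (h : ∀ i, w i = z i → x i = w i) :
    hammingDist w x + hammingDist x z = hammingDist w z := by
  unfold hammingDist
  rw [← Finset.card_union_of_disjoint]
  · congr 1
    ext i
    simp only [Finset.mem_union, Finset.mem_filter, Finset.mem_univ, true_and]
    have h1 := h i
    revert h1
    cases w i <;> cases z i <;> cases x i <;> decide
  · rw [Finset.disjoint_left]
    intro i hi hi'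
    rw [Finset.mem_filter] at hi hi'
    have key : ∀ a b c : Bool, a ≠ c → c ≠ b → (a = b → c = a) → False := by decide
    exact key _ _ _ hi.2 hi'.2 (h i)

/-- For every `n`, every automorphism `φ` of the `n`-cube such that, for some vertex `w`, `φ ∘ φ`
fixes every vertex lying on a geodesic from `w` to `φ w` (for example any involution), every
2-colouring `c` of the edges and every colour `b` such that every edge or its image under `φ` has
colour `b`, some vertex `u` is joined to `φ u` by a path all of whose edges have colour `b`. -/
theorem result :
    ∀ n : ℕ,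
      ∀ φ : (SimpleGraph.fromRel fun x y : Fin n → Bool => hammingDist x y = 1) ≃g
            (SimpleGraph.fromRel fun x y : Fin n → Bool => hammingDist x y = 1),
        (∃ w : Fin n → Bool, ∀ x : Fin n → Bool,
          hammingDist w x + hammingDist x (φ w) = hammingDist w (φ w) → φ (φ x) = x) →
        ∀ c : Sym2 (Fin n → Bool) → Bool, ∀ b : Bool,
          (∀ u v : Fin n → Bool,
            (SimpleGraph.fromRel fun x y : Fin n → Bool => hammingDist x y = 1).Adj u v →
            c s(u, v) = b ∨ c s(φ u, φ v) = b) →
          ∃ u : Fin n → Bool,
            ∃ p : (SimpleGraph.fromRel fun x y : Fin n → Bool => hammingDist x y = 1).Walk u (φ u),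
              p.IsPath ∧ ∀ e ∈ p.edges, c e = b := by
  classical
  intro n φ hw c b hc
  obtain ⟨π, hπ⟩ := aut_structure φ
  obtain ⟨w, hw⟩ := hw
  -- the difference of two vertices is mapped by π
  have key : ∀ x y : V n, ∀ i, xor (φ x (π i)) (x i) = xor (φ y (π i)) (y i) := by
    intro x y i
    refine closed_univ (P := fun x => xor (φ x (π i)) (x i) = xor (φ y (π i)) (y i)) ?_
      (x := y) rfl
    intro x k hx
    rw [hπ]
    by_cases hk : k = i
    · subst hk
      rw [flip_same, flip_same, ← hx]
      cases φ x (π k) <;> cases x k <;> rfl
    · have hk' : π i ≠ π k := fun h => hk (π.injective h).symm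
      rw [flip_of_ne _ hk', flip_of_ne _ (fun h => hk h.symm)]
      exact hx
  -- the face spanned by w and φ w
  let A : Fin n → Prop := fun i => w i ≠ φ w i
  let Fc : V n → Prop := fun x => ∀ i, ¬ A i → x i = w i
  have hinv : ∀ x, Fc x → φ (φ x) = x := by
    intro x hx
    apply hw x
    exact dist_face w (φ w) x (fun i hi => hx i (fun h => h hi))
  have hFw : Fc w := fun i _ => rfl
  have hww : φ (φ w) = w := hinv w hFw
  have hA : ∀ i, A (π i) ↔ A i := by
    intro i
    have h1 := key (φ w) w i
    rw [hww] at h1
    change (w (π i) ≠ φ w (π i)) ↔ (w i ≠ φ w i)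
    revert h1
    cases w (π i) <;> cases φ w (π i) <;> cases w i <;> cases φ w i <;> decide
  have hFflip : ∀ x i, Fc x → A i → Fc (flip x i) := by
    intro x i hx hi j hj
    rw [flip_of_ne _ (fun h => hj (by rw [h]; exact hi))]
    exact hx j hj
  have hFφ : ∀ x, Fc x → Fc (φ x) := by
    intro x hx i hi
    obtain ⟨j, rfl⟩ := π.surjective i
    have hj : ¬ A j := fun h => hi ((hA j).mpr h)
    have h1 := key x w j
    rw [hx j hj] at h1
    have h2 : φ x (π j) = φ w (π j) := by
      revert h1
      cases φ x (π j) <;> cases φ w (π j) <;> cases w j <;> decide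
    rw [h2]
    by_contra h3
    exact hi (fun h4 => h3 h4.symm)
  -- π is an involution on the face
  have hππ : ∀ i, A i → π (π i) = i := by
    intro i hi
    have h1 : φ (φ (flip w i)) = flip (φ (φ w)) (π (π i)) := by rw [hπ, hπ]
    rw [hinv _ (hFflip w i hFw hi), hww] at h1
    exact (flip_inj w h1).symm
  obtain ⟨u, hFu, hu⟩ : ∃ u : V n, Fc u ∧ ∀ x : V n, Fc x →
      hammingDist u (φ u) ≤ hammingDist x (φ x) := by
    obtain ⟨u, hu1, hu⟩ := Finset.exists_min_image (Finset.univ.filter (fun x : V n => Fc x))
      (fun x => hammingDist x (φ x)) ⟨w, by simp [hFw]⟩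
    exact ⟨u, (Finset.mem_filter.mp hu1).2,
      fun x hx => hu x (Finset.mem_filter.mpr ⟨Finset.mem_univ x, hx⟩)⟩
  set N : Finset (Fin n) := Finset.univ.filter (fun i => u i ≠ φ u i) with hN
  have hmemN : ∀ i, i ∈ N ↔ u i ≠ φ u i := fun i => by simp [hN]
  have hNA : ∀ i ∈ N, A i := by
    intro i hi h
    have h1 := hFu i (fun h' => h' h)
    have h2 := hFφ u hFu i (fun h' => h' h)
    exact (hmemN i).mp hi (by rw [h1, h2])
  have huu : φ (φ u) = u := hinv u hFu
  -- the coordinates in N are fixed by π
  have hfix : ∀ i ∈ N, π i = i := by
    intro i hi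
    by_contra hne
    have hi' := (hmemN i).mp hi
    -- π i is in N as well
    have hj : π i ∈ N := by
      by_contra hj
      have hj' : u (π i) = φ u (π i) := by
        by_contra h
        exact hj ((hmemN _).mpr h)
      have h1 := key (φ u) u i
      rw [huu, ← hj'] at h1
      revert h1 hi'
      cases u (π i) <;> cases u i <;> cases φ u i <;> decide
    have hj' := (hmemN _).mp hj
    have hlt : hammingDist (flip u i) (φ (flip u i)) < hammingDist u (φ u) := by
      rw [hπ]
      unfold hammingDist
      apply Finset.card_lt_card
      refine ⟨?_, ?_⟩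
      · intro k hk
        rw [Finset.mem_filter] at hk ⊢
        refine ⟨Finset.mem_univ _, ?_⟩
        by_cases hki : k = i
        · subst hki; exact hi'
        · by_cases hkj : k = π i
          · subst hkj; exact hj'
          · have := hk.2
            rwa [flip_of_ne _ hki, flip_of_ne _ hkj] at this
      · intro hsub
        have h1 : i ∈ Finset.univ.filter (fun k => u k ≠ φ u k) := by simp [hi']
        have h2 := (Finset.mem_filter.mp (hsub h1)).2
        rw [flip_same, flip_of_ne _ (fun h => hne h.symm)] at h2
        have key : ∀ x y : Bool, x ≠ y → (!x) ≠ y → False := by decide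
        exact key _ _ hi' h2
    exact absurd (hu (flip u i) (hFflip u i hFu (hNA i hi))) (not_le.mpr hlt)
  -- φ acts on the face as the complement
  have hcompl : ∀ S : Finset {i : Fin n // i ∈ N}, φ (e u N S) = e u N Sᶜ := by
    intro S
    induction S using Finset.induction_on with
    | empty =>
      rw [e_empty]
      funext j
      by_cases hj : j ∈ N
      · have := (hmemN j).mp hj
        simp only [e, hj, dif_pos, Finset.compl_empty, Finset.mem_univ, if_true]
        revert this
        cases u j <;> cases φ u j <;> decide
      · have : u j = φ u j := by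
          by_contra h
          exact hj ((hmemN j).mpr h)
        simp [e, hj, this]
    | insert i S hi ih =>
      rw [e_insert u N S i hi, hπ, hfix i.1 i.2, ih]
      have hi' : i ∉ (insert i S)ᶜ := by simp
      have : insert i (insert i S)ᶜ = Sᶜ := by
        ext j
        simp only [Finset.mem_insert, Finset.mem_compl, not_or]
        constructor
        · rintro (rfl | h)
          · exact hi
          · exact h.2
        · intro h
          by_cases hj : j = i
          · exact Or.inl hj
          · exact Or.inr ⟨hj, h⟩
      rw [← this, e_insert u N _ i hi', CubeHom.flip_flip]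
  -- labels: the components of colour b
  obtain ⟨S, hS⟩ := Pool.Agent.Norine.labels
    (fun S : Finset {i : Fin n // i ∈ N} => {y : V n | Comp c b (e u N S) y})
    (by
      intro S i
      by_cases hi : i ∈ S
      · left; rw [Finset.insert_eq_of_mem hi]
      · have hins := e_insert u N S i hi
        have hset : ∀ {x y : V n}, Comp c b x y → {z : V n | Comp c b y z} = {z | Comp c b x z} := by
          intro x y h
          ext z
          exact ⟨fun h' => h.trans h', fun h' => h.symm.trans h'⟩
        rcases hc (e u N S) (e u N (insert i S)) (by rw [hins]; exact adj_flip _ _) with h | h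
        · left
          rw [hins] at h ⊢
          exact hset (comp_flip h)
        · right
          rw [hcompl, hcompl] at h
          have hi' : i ∉ (insert i S)ᶜ := by simp
          have hSc : insert i (insert i S)ᶜ = Sᶜ := by
            ext j
            simp only [Finset.mem_insert, Finset.mem_compl, not_or]
            constructor
            · rintro (rfl | h)
              · exact hi
              · exact h.2
            · intro h
              by_cases hj : j = i
              · exact Or.inl hj
              · exact Or.inr ⟨hj, h⟩
          have hins2 := e_insert u N (insert i S)ᶜ i hi'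
          rw [hSc] at hins2
          rw [hins2, Sym2.eq_swap] at h
          have h3 := hset (comp_flip h)
          rw [← hins2] at h3
          exact h3.symm)
  have hcomp : Comp c b (e u N S) (φ (e u N S)) := by
    rw [hcompl]
    have h1 : e u N Sᶜ ∈ {y : V n | Comp c b (e u N Sᶜ) y} := Comp.refl _
    rw [← hS] at h1
    exact h1
  obtain ⟨p, hp⟩ := walk_of_comp hcomp
  refine ⟨e u N S, p.bypass, p.bypass_isPath, ?_⟩
  intro e he
  exact hp e ((p.edges_bypass_sublist_edges).subset he)

end Pool.Agent.Results.MP_a0ec0b_co.Norine
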