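import Pool.Agent.Lib_MP_a0ec0b_co.SqrtWalk

/-!
Paths with `O(√n)` colour changes from `u` to `f u`, for an arbitrary permutation `f` of the
vertices of the 2-edge-coloured cube; the order is best possible on average.
-/

set_option autoImplicit false

namespace Pool.Agent.Results.MP_a0ec0b_co.SqrtPaths

open Pool.Agent.CubeHom

/-- The cube graph on `Fin n → Bool`: two vertices are adjacent when they differ in exactly one
coordinate. -/
def Cube (n : ℕ) : SimpleGraph (Fin n → Bool) :=
  SimpleGraph.fromRel fun x y : Fin n → Bool => hammingDist x y = 1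

/-- Number of colour changes in a list of colours: the number of places where two consecutive
entries are different. -/
def colourChanges : List Bool → ℕ
  | [] => 0
  | [_] => 0
  | a :: b :: l => (if a = b then 0 else 1) + colourChanges (b :: l)

theorem colourChanges_eq : ∀ l : List Bool, colourChanges l = changes l
  | [] => rfl
  | [_] => rfl
  | a :: b :: l => by
    simp only [colourChanges, changes]
    rw [colourChanges_eq (b :: l)]

/-- (1) For every permutation `f` of the vertices of the `n`-cube (`n ≥ 2`) and every 2-colouring of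
the edges one can choose for each vertex `u` a path from `u` to `f u` such that the average number
of colour changes of these paths is at most `(π/2) n / √(n-1) + 2`. (2) In particular, for every
automorphism `φ`, some `u` is joined to `φ u` by a path with at most so many colour changes.
(3) The order `√n` is best possible in (1), already for the antipodal map: for every `n ≥ 1` there
is a 2-colouring such that, for every choice of a walk from `u` to its antipode for each vertex
`u`, the average number of colour changes is at least `(4/9) √n - 1`. -/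
theorem result :
    (∀ n : ℕ, 2 ≤ n → ∀ c : Sym2 (Fin n → Bool) → Bool,
      (∀ f : Equiv.Perm (Fin n → Bool),
        ∃ p : ∀ u : Fin n → Bool, (Cube n).Walk u (f u), (∀ u, (p u).IsPath) ∧
          (∑ u : Fin n → Bool, (colourChanges ((p u).edges.map c) : ℝ)) / 2 ^ n
            ≤ Real.pi / 2 * n / Real.sqrt (n - 1) + 2) ∧
      (∀ φ : Cube n ≃g Cube n, ∃ (u : Fin n → Bool) (p : (Cube n).Walk u (φ u)), p.IsPath ∧
        (colourChanges (p.edges.map c) : ℝ) ≤ Real.pi / 2 * n / Real.sqrt (n - 1) + 2)) ∧
    (∀ n : ℕ, 1 ≤ n → ∃ c : Sym2 (Fin n → Bool) → Bool,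
      ∀ p : ∀ u : Fin n → Bool, (Cube n).Walk u (fun i => !u i),
        4 / 9 * Real.sqrt n - 1 ≤
          (∑ u : Fin n → Bool, (colourChanges ((p u).edges.map c) : ℝ)) / 2 ^ n) := by
  constructor
  · intro n hn c
    have h1 : ∀ f : Equiv.Perm (Fin n → Bool),
        ∃ p : ∀ u : Fin n → Bool, (Cube n).Walk u (f u), (∀ u, (p u).IsPath) ∧
          (∑ u : Fin n → Bool, (colourChanges ((p u).edges.map c) : ℝ)) / 2 ^ n
            ≤ Real.pi / 2 * n / Real.sqrt (n - 1) + 2 := by
      intro f
      obtain ⟨p, hp1, hp2⟩ := main_paths_sqrt hn f c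
      refine ⟨p, hp1, ?_⟩
      simp only [colourChanges_eq]
      exact hp2
    refine ⟨h1, ?_⟩
    intro φ
    obtain ⟨p, hp1, hp2⟩ := h1 φ.toEquiv
    by_contra hcon
    push Not at hcon
    have h2n : (0 : ℝ) < 2 ^ n := by positivity
    rw [div_le_iff₀ h2n] at hp2
    have h3 : ∑ u : Fin n → Bool, (Real.pi / 2 * n / Real.sqrt (n - 1) + 2)
        < ∑ u : Fin n → Bool, (colourChanges ((p u).edges.map c) : ℝ) :=
      Finset.sum_lt_sum_of_nonempty ⟨fun _ => true, Finset.mem_univ _⟩
        (fun u _ => hcon u (p u) (hp1 u))
    rw [Finset.sum_const, Finset.card_univ] at h3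
    simp only [Fintype.card_pi, Fintype.card_bool, Finset.prod_const, Finset.card_univ,
      Fintype.card_fin, nsmul_eq_mul, Nat.cast_pow, Nat.cast_ofNat] at h3
    linarith
  · intro n hn
    refine ⟨levc n, ?_⟩
    intro p
    rw [le_div_iff₀ (by positivity)]
    have h1 := Pool.MP_801c1a_co.Sub.abs_avg n hn
    have h2 : ∑ v : Fin n → Bool, (|((Pool.MP_801c1a_co.Sub.Sg v : ℤ) : ℝ)| - 1) ≤
        ∑ v : Fin n → Bool, (colourChanges ((p v).edges.map (levc n)) : ℝ) := by
      refine Finset.sum_le_sum fun v _ => ?_
      rw [colourChanges_eq]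
      exact anti_lower v (p v)
    rw [Finset.sum_sub_distrib, Pool.MP_801c1a_co.Sub.moment0] at h2
    have h3 : (0 : ℝ) < 2 ^ n := by positivity
    nlinarith

end Pool.Agent.Results.MP_a0ec0b_co.SqrtPaths
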