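import Pool.Agent.Lib_fs_sym.Main
import Pool.Agent.Lib_MP_a0ec0b_co.TwoPaths

/-!
Colourings that are invariant under the automorphism: some vertex `u` is joined to `φ u` by a path
with at most one colour change.
-/

set_option autoImplicit false

namespace Pool.Agent.Results.MP_a0ec0b_co.SymmetricColourings

open Pool.Agent.CubeHom Finset

/-- For every `n`, every automorphism `φ` of the `n`-cube such that, for some vertex `w`, `φ ∘ φ`
fixes every vertex lying on a geodesic from `w` to `φ w` (for example any involution, in particular
the antipodal map), and every 2-colouring `c` of the edges which is invariant under `φ`, some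
vertex `u` is joined to `φ u` by a path which consists of a part of colour `k` followed by a part
of the other colour; the colour `k` of the first part can be prescribed. -/
theorem result :
    ∀ n : ℕ,
      ∀ φ : (SimpleGraph.fromRel fun x y : Fin n → Bool => hammingDist x y = 1) ≃g
            (SimpleGraph.fromRel fun x y : Fin n → Bool => hammingDist x y = 1),
        (∃ w : Fin n → Bool, ∀ x : Fin n → Bool,
          hammingDist w x + hammingDist x (φ w) = hammingDist w (φ w) → φ (φ x) = x) →
        ∀ (c : Sym2 (Fin n → Bool) → Bool),
          (∀ x y : Fin n → Bool,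
            (SimpleGraph.fromRel fun x y : Fin n → Bool => hammingDist x y = 1).Adj x y →
            c s(φ x, φ y) = c s(x, y)) →
          ∀ k : Bool, ∃ u : Fin n → Bool,
            ∃ p : (SimpleGraph.fromRel fun x y : Fin n → Bool => hammingDist x y = 1).Walk u (φ u),
              p.IsPath ∧ ∃ l₁ l₂ : List (Sym2 (Fin n → Bool)), p.edges = l₁ ++ l₂ ∧
                (∀ e ∈ l₁, c e = k) ∧ (∀ e ∈ l₂, c e = !k) := by
  classical
  intro n φ hw c hc k
  obtain ⟨π, hπ⟩ := aut_structure φ
  obtain ⟨w, hw⟩ := hw
  obtain ⟨m, ⟨F⟩⟩ := geodesic_antiFace (fun x => φ x) π hπ w hw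
  -- the automorphism maps components to components
  have hcomp : ∀ (k : Bool) (x y : V n), Comp c k x y → Comp c k (φ x) (φ y) := by
    intro k x y h
    unfold Comp at h
    induction h with
    | refl => exact Comp.refl _
    | @tail b d _ h2 ih =>
      obtain ⟨i, rfl, h2⟩ := h2
      refine Comp.trans ih ?_
      have h3 := hc b (flip b i) (adj_flip b i)
      have h4 : φ (flip b i) = flip (φ b) (π i) := hπ b i
      rw [h4] at h3 ⊢
      exact comp_flip (h3.trans h2)
  obtain ⟨u, w', h1, h2⟩ := Pool.Agent.FsSym.labels
    (fun s => lab c k (F.pt s)) (fun s => lab c (!k) (F.pt s))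
    (by
      intro v i
      by_cases hi : i ∈ v
      · left
        rw [Finset.insert_eq_of_mem hi]
      · by_cases hk : col c (F.pt v) (F.dir i) = k
        · left
          simp only [lab_eq]
          rw [F.hpt v i hi]
          exact (comp_flip hk).symm
        · right
          simp only [lab_eq]
          rw [F.hpt v i hi]
          refine (comp_flip ?_).symm
          revert hk
          cases col c (F.pt v) (F.dir i) <;> cases k <;> decide)
    (by
      intro v w h
      simp only [lab_eq] at h ⊢
      rw [← F.hanti, ← F.hanti]
      exact hcomp _ _ _ h)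
    (by
      intro v w h
      simp only [lab_eq] at h ⊢
      rw [← F.hanti, ← F.hanti]
      exact hcomp _ _ _ h)
  simp only [lab_eq] at h1 h2
  rw [← F.hanti] at h2
  obtain ⟨p, hp⟩ := walk_of_comp h1
  obtain ⟨q, hq⟩ := walk_of_comp h2
  refine ⟨F.pt u, (p.append q).bypass, (p.append q).bypass_isPath, ?_⟩
  have hsub := (p.append q).edges_bypass_sublist_edges
  rw [SimpleGraph.Walk.edges_append, List.sublist_append_iff] at hsub
  obtain ⟨l₁, l₂, he, hl1, hl2⟩ := hsub
  exact ⟨l₁, l₂, he, fun e h => hp e (hl1.subset h), fun e h => hq e (hl2.subset h)⟩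

end Pool.Agent.Results.MP_a0ec0b_co.SymmetricColourings
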