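import Pool.Agent.Lib_MP_a0ec0b_co.TwoPaths

/-!
Arbitrary 2-colourings: some vertex `u` is joined to `φ u` by a path with at most two colour
changes, for every automorphism `φ` that is involutive on the face spanned by some `w` and `φ w`
(all involutions, in particular the antipodal map), in every dimension.
-/

set_option autoImplicit false

namespace Pool.Agent.Results.MP_a0ec0b_co.TwoChanges

open Pool.Agent.CubeHom

/-- For every `n`, every automorphism `φ` of the `n`-cube such that, for some vertex `w`, `φ ∘ φ`
fixes every vertex lying on a geodesic from `w` to `φ w` (for example any involution, in particular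
the antipodal map), every 2-colouring `c` of the edges and each of the two colours `k`, there is a
vertex `u` and a path from `u` to `φ u` that consists of a part of colour `k`, a part of the other
colour and a part of colour `k` (parts may be empty); in particular it has at most two colour
changes. -/
theorem result :
    ∀ n : ℕ,
      ∀ φ : (SimpleGraph.fromRel fun x y : Fin n → Bool => hammingDist x y = 1) ≃g
            (SimpleGraph.fromRel fun x y : Fin n → Bool => hammingDist x y = 1),
        (∃ w : Fin n → Bool, ∀ x : Fin n → Bool,
          hammingDist w x + hammingDist x (φ w) = hammingDist w (φ w) → φ (φ x) = x) →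
        ∀ (c : Sym2 (Fin n → Bool) → Bool) (k : Bool),
          ∃ u : Fin n → Bool,
            ∃ p : (SimpleGraph.fromRel fun x y : Fin n → Bool => hammingDist x y = 1).Walk u (φ u),
              p.IsPath ∧ ∃ l₁ l₂ l₃ : List (Sym2 (Fin n → Bool)), p.edges = l₁ ++ l₂ ++ l₃ ∧
                (∀ e ∈ l₁, c e = k) ∧ (∀ e ∈ l₂, c e = !k) ∧ ∀ e ∈ l₃, c e = k := by
  intro n φ hw c k
  obtain ⟨π, hπ⟩ := aut_structure φ
  obtain ⟨w, hw⟩ := hw
  obtain ⟨m, ⟨F⟩⟩ := geodesic_antiFace (fun x => φ x) π hπ w hw
  obtain ⟨x, y, z, h1, h2, h3⟩ := face_two F c k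
  obtain ⟨p, hp⟩ := blocks_of_comp h1 h2 h3
  exact ⟨x, p, hp⟩

end Pool.Agent.Results.MP_a0ec0b_co.TwoChanges
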